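import Pool.Agent.H27.RC.Stmts

/-!
Module OSC of the project RC: small oscillation of the windows of band elements.
-/

open scoped ENNReal NNReal InnerProductSpace ComplexOrder
open Filter Topology Pool.Agent.H27.RC

noncomputable section

namespace Pool.Agent.H44.RC

/-- A Schur test. -/
theorem schur_bound {ι : Type*} [Fintype ι] [DecidableEq ι]
    (S : EuclideanSpace ℂ ι →L[ℂ] EuclideanSpace ℂ ι) (s : ι → ι → ℂ)
    (hS : ∀ v p, S v p = ∑ q, s p q * v q) (B : ι → ι → Prop) [∀ p q, Decidable (B p q)]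
    (t : ℝ) (ht : 0 ≤ t) (hs : ∀ p q, ‖s p q‖ ≤ if B p q then t else 0) (D : ℕ)
    (hrow : ∀ p, (Finset.univ.filter fun q => B p q).card ≤ D)
    (hcol : ∀ q, (Finset.univ.filter fun p => B p q).card ≤ D) : ‖S‖ ≤ D * t := by
  refine ContinuousLinearMap.opNorm_le_bound _ (by positivity) fun v => ?_
  have h1 : ‖S v‖ ^ 2 ≤ (D * t * ‖v‖) ^ 2 := by
    rw [EuclideanSpace.norm_sq_eq]
    have h2 : ∀ p, ‖S v p‖ ^ 2 ≤ D * t ^ 2 * ∑ q, (if B p q then ‖v q‖ ^ 2 else 0) := by
      intro p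
      have h3 : ‖S v p‖ ≤ ∑ q ∈ Finset.univ.filter (fun q => B p q), t * ‖v q‖ := by
        rw [hS]
        refine (norm_sum_le _ _).trans ?_
        rw [Finset.sum_filter]
        refine Finset.sum_le_sum fun q _ => ?_
        rw [norm_mul]
        have := hs p q
        split_ifs with hB
        · rw [if_pos hB] at this
          exact mul_le_mul_of_nonneg_right this (norm_nonneg _)
        · rw [if_neg hB] at this
          have h0 : ‖s p q‖ = 0 := le_antisymm this (norm_nonneg _)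
          rw [h0, zero_mul]
      have h4 : (∑ q ∈ Finset.univ.filter (fun q => B p q), t * ‖v q‖) ^ 2 ≤
          ((Finset.univ.filter fun q => B p q).card : ℝ) *
            ∑ q ∈ Finset.univ.filter (fun q => B p q), (t * ‖v q‖) ^ 2 :=
        sq_sum_le_card_mul_sum_sq
      have h5 : ∑ q ∈ Finset.univ.filter (fun q => B p q), (t * ‖v q‖) ^ 2 =
          t ^ 2 * ∑ q, (if B p q then ‖v q‖ ^ 2 else 0) := by
        rw [Finset.sum_filter, Finset.mul_sum]
        refine Finset.sum_congr rfl fun q _ => ?_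
        split_ifs
        · ring
        · ring
      have h6 : 0 ≤ t ^ 2 * ∑ q, (if B p q then ‖v q‖ ^ 2 else 0) := by
        refine mul_nonneg (sq_nonneg _) (Finset.sum_nonneg fun q _ => ?_)
        split_ifs
        · exact sq_nonneg _
        · exact le_refl _
      have h7 : ((Finset.univ.filter fun q => B p q).card : ℝ) ≤ D := by exact_mod_cast hrow p
      calc ‖S v p‖ ^ 2 ≤ (∑ q ∈ Finset.univ.filter (fun q => B p q), t * ‖v q‖) ^ 2 :=
            pow_le_pow_left₀ (norm_nonneg _) h3 2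
        _ ≤ _ := h4
        _ ≤ D * (t ^ 2 * ∑ q, (if B p q then ‖v q‖ ^ 2 else 0)) := by
            rw [h5]
            exact mul_le_mul_of_nonneg_right h7 h6
        _ = _ := by ring
    have h8 : ∑ p, ∑ q, (if B p q then ‖v q‖ ^ 2 else 0) ≤ D * ∑ q, ‖v q‖ ^ 2 := by
      rw [Finset.sum_comm, Finset.mul_sum]
      refine Finset.sum_le_sum fun q _ => ?_
      rw [← Finset.sum_filter, Finset.sum_const, nsmul_eq_mul]
      exact mul_le_mul_of_nonneg_right (by exact_mod_cast hcol q) (sq_nonneg _)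
    calc ∑ p, ‖S v p‖ ^ 2 ≤ ∑ p, D * t ^ 2 * ∑ q, (if B p q then ‖v q‖ ^ 2 else 0) :=
          Finset.sum_le_sum fun p _ => h2 p
      _ = D * t ^ 2 * ∑ p, ∑ q, (if B p q then ‖v q‖ ^ 2 else 0) := by rw [Finset.mul_sum]
      _ ≤ D * t ^ 2 * (D * ∑ q, ‖v q‖ ^ 2) := mul_le_mul_of_nonneg_left h8 (by positivity)
      _ = (D * t * ‖v‖) ^ 2 := by
          rw [← EuclideanSpace.norm_sq_eq]
          ring
  exact le_of_sq_le_sq h1 (by positivity)

variable {n : ℕ}

/-- The condition on the level. -/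
def okL (ℓ M : ℕ) (p : Fin ℓ × Fin n) : Prop := M ≤ (p.1 : ℕ) ∧ (p.1 : ℕ) + M < ℓ

instance (ℓ M : ℕ) (p : Fin ℓ × Fin n) : Decidable (okL ℓ M p) := by
  unfold okL
  infer_instance

/-- The position in the window. -/
def pos {ℓ : ℕ} (p : Fin ℓ × Fin n) : ℤ × Fin n := (((p.1 : ℕ) : ℤ), p.2)

theorem place_single (ℓ M : ℕ) (p : Fin ℓ × Fin n) :
    place M 0 (EuclideanSpace.single p (1 : ℂ)) = if okL ℓ M p then del (pos p) else 0 := by
  unfold place
  rw [ContinuousLinearMap.sum_apply]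
  simp only [ContinuousLinearMap.smulRight_apply, EuclideanSpace.coe_proj, zero_add]
  rw [Finset.sum_filter]
  rw [Finset.sum_eq_single p]
  · simp [okL, pos]
  · intro q _ hq
    simp [hq]
  · intro h
    exact absurd (Finset.mem_univ p) h

theorem adj_place_apply (ℓ M : ℕ) (ξ : Hil n) (p : Fin ℓ × Fin n) :
    (ContinuousLinearMap.adjoint (place M 0 : EE ℓ n →L[ℂ] Hil n)) ξ p =
      if okL ℓ M p then ξ (pos p) else 0 := by
  have h1 : ⟪(EuclideanSpace.single p (1 : ℂ) : EE ℓ n),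
      (ContinuousLinearMap.adjoint (place M 0 : EE ℓ n →L[ℂ] Hil n)) ξ⟫_ℂ =
      (ContinuousLinearMap.adjoint (place M 0 : EE ℓ n →L[ℂ] Hil n)) ξ p := by
    rw [EuclideanSpace.inner_single_left]
    simp
  rw [← h1, ContinuousLinearMap.adjoint_inner_right, place_single]
  split_ifs with h
  · rw [del, lp.inner_single_left]
    simp
  · simp

theorem win_apply (ℓ M : ℕ) (T : Hil n →L[ℂ] Hil n) (v : EE ℓ n) (p : Fin ℓ × Fin n) :
    win ℓ M T v p = ∑ q, (if okL ℓ M p ∧ okL ℓ M q then entry T (pos p) (pos q) else 0) * v q := by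
  have hv : v = ∑ q, v q • EuclideanSpace.single q (1 : ℂ) := by
    ext q
    rw [WithLp.ofLp_sum, Finset.sum_apply, Finset.sum_eq_single q]
    · simp
    · intro b _ hb
      simp [Ne.symm hb]
    · intro hq
      exact absurd (Finset.mem_univ q) hq
  conv_lhs => rw [hv]
  unfold win
  simp only [ContinuousLinearMap.comp_apply, map_sum, map_smul]
  rw [WithLp.ofLp_sum, Finset.sum_apply]
  refine Finset.sum_congr rfl fun q _ => ?_
  rw [PiLp.smul_apply, adj_place_apply, place_single, smul_eq_mul, mul_comm]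
  congr 1
  by_cases hp : okL ℓ M p
  · by_cases hq : okL ℓ M q
    · simp [hp, hq, entry]
    · simp [hp, hq]
  · simp [hp]

/-- A finite open cover on whose members a continuous function to a finite product oscillates
little. -/
theorem exists_cover {X : Type} [TopologicalSpace X] [CompactSpace X] {E : Type*}
    [PseudoMetricSpace E] (F : X → E) (hF : Continuous F) (t : ℝ) (ht : 0 < t) :
    ∃ 𝒰 : Set (Set X), IsFinOpenCover 𝒰 ∧ ∀ U ∈ 𝒰, ∀ x ∈ U, ∀ y ∈ U, dist (F x) (F y) ≤ t := by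
  have hopen : ∀ x : X, IsOpen (F ⁻¹' Metric.ball (F x) (t / 2)) := fun x =>
    Metric.isOpen_ball.preimage hF
  have hcov : (Set.univ : Set X) ⊆ ⋃ x : X, F ⁻¹' Metric.ball (F x) (t / 2) := by
    intro x _
    rw [Set.mem_iUnion]
    exact ⟨x, Metric.mem_ball_self (by positivity)⟩
  obtain ⟨s, hs⟩ := isCompact_univ.elim_finite_subcover _ hopen hcov
  refine ⟨(fun x => F ⁻¹' Metric.ball (F x) (t / 2)) '' (s : Set X), ⟨?_, ?_, ?_⟩, ?_⟩
  · exact s.finite_toSet.image _
  · rintro _ ⟨x, _, rfl⟩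
    exact hopen x
  · rw [Set.eq_univ_iff_forall]
    intro x
    have := hs (Set.mem_univ x)
    rw [Set.mem_iUnion₂] at this
    obtain ⟨y, hy, hxy⟩ := this
    exact Set.mem_sUnion.mpr ⟨_, ⟨y, hy, rfl⟩, hxy⟩
  · rintro _ ⟨z, _, rfl⟩ x hx y hy
    have h1 : dist (F x) (F z) < t / 2 := hx
    have h2 : dist (F y) (F z) < t / 2 := hy
    have h3 := dist_triangle_right (F x) (F y) (F z)
    linarith

theorem card_band (ℓ M : ℕ) (p : Fin ℓ × Fin n) :
    (Finset.univ.filter fun q : Fin ℓ × Fin n => |(pos p).1 - (pos q).1| ≤ (M : ℤ)).card ≤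
      (2 * M + 1) * n := by
  have h1 : (Finset.univ.filter fun q : Fin ℓ × Fin n => |(pos p).1 - (pos q).1| ≤ (M : ℤ)).card ≤
      ((Finset.Icc (-(M : ℤ)) M) ×ˢ (Finset.univ : Finset (Fin n))).card := by
    refine Finset.card_le_card_of_injOn (fun q => ((pos p).1 - (pos q).1, q.2)) ?_ ?_
    · intro q hq
      simp only [Finset.coe_filter, Finset.mem_univ, true_and, Set.mem_ofPred_eq] at hq
      simp only [Finset.coe_product, Set.mem_prod, Finset.mem_coe, Finset.mem_Icc,
        Finset.mem_univ, and_true]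
      exact abs_le.mp hq
    · intro q _ q' _ h
      simp only [Prod.mk.injEq, pos] at h
      refine Prod.ext ?_ h.2
      apply Fin.ext
      have := h.1
      omega
  refine h1.trans ?_
  rw [Finset.card_product, Int.card_Icc, Finset.card_univ, Fintype.card_fin]
  refine Nat.mul_le_mul_right _ ?_
  omega

/-- Module OSC. -/
theorem osc : OSCStmt := by
  intro X _ _ h n 𝒜 _ M a b M₀ ha hb η hη
  obtain ⟨ca, hca, hca'⟩ := ha
  obtain ⟨cb, hcb, hcb'⟩ := hb
  set D : ℕ := (2 * M₀ + 1) * n with hD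
  set t : ℝ := η / (D + 1) with ht
  have ht0 : 0 < t := by positivity
  have hDt : (D : ℝ) * t ≤ η := by
    rw [ht, mul_div_assoc', div_le_iff₀ (by positivity)]
    nlinarith
  -- the continuous function collecting all coefficients
  let F : X → (Finset.Icc (-(M₀ : ℤ)) M₀ → Fin n → Fin n → ℂ) ×
      (Finset.Icc (-(M₀ : ℤ)) M₀ → Fin n → Fin n → ℂ) :=
    fun x => (fun k e f => ca k x e f, fun k e f => cb k x e f)
  have hF : Continuous F := by
    refine Continuous.prodMk ?_ ?_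
    · refine continuous_pi fun k => continuous_pi fun e => continuous_pi fun f => ?_
      exact (continuous_apply f).comp ((continuous_apply e).comp (hca k))
    · refine continuous_pi fun k => continuous_pi fun e => continuous_pi fun f => ?_
      exact (continuous_apply f).comp ((continuous_apply e).comp (hcb k))
  obtain ⟨𝒰, h𝒰, hosc⟩ := exists_cover F hF t ht0
  refine ⟨𝒰, h𝒰, ?_⟩
  intro ℓ W hW x hx y hy
  obtain ⟨U, hU, rfl⟩ := hW
  have hFxy : ∀ i : Fin ℓ, dist (F ((h ^ ((i : ℕ) : ℤ)) x)) (F ((h ^ ((i : ℕ) : ℤ)) y)) ≤ t := by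
    intro i
    have h1 := hx i
    have h2 := hy i
    rw [← zpow_natCast] at h1 h2
    exact hosc (U i) (hU i) _ h1 _ h2
  have main : ∀ (T : 𝒜) (c : ℤ → X → Matrix (Fin n) (Fin n) ℂ),
      (∀ (x : X) (p q : ℤ × Fin n), entry (M.fib x T) p q =
        if |p.1 - q.1| ≤ (M₀ : ℤ) then c (p.1 - q.1) ((h ^ p.1) x) p.2 q.2 else 0) →
      (∀ (i : Fin ℓ) (k : ℤ) (e f : Fin n), |k| ≤ (M₀ : ℤ) →
        ‖c k ((h ^ ((i : ℕ) : ℤ)) x) e f - c k ((h ^ ((i : ℕ) : ℤ)) y) e f‖ ≤ t) →
      ‖win ℓ M₀ (M.fib x T) - win ℓ M₀ (M.fib y T)‖ ≤ η := by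
    intro T c hc hcl
    refine (schur_bound (win ℓ M₀ (M.fib x T) - win ℓ M₀ (M.fib y T))
      (fun p q => (if okL ℓ M₀ p ∧ okL ℓ M₀ q then entry (M.fib x T) (pos p) (pos q) else 0) -
        (if okL ℓ M₀ p ∧ okL ℓ M₀ q then entry (M.fib y T) (pos p) (pos q) else 0)) ?_
      (fun p q => |(pos p).1 - (pos q).1| ≤ (M₀ : ℤ)) t ht0.le ?_ D ?_ ?_).trans hDt
    · intro v p
      rw [ContinuousLinearMap.sub_apply, PiLp.sub_apply, win_apply, win_apply,
        ← Finset.sum_sub_distrib]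
      exact Finset.sum_congr rfl fun q _ => by ring
    · intro p q
      by_cases hpq : okL ℓ M₀ p ∧ okL ℓ M₀ q
      · simp only [if_pos hpq]
        rw [hc, hc]
        by_cases hb : |(pos p).1 - (pos q).1| ≤ (M₀ : ℤ)
        · simp only [if_pos hb]
          exact hcl p.1 _ _ _ hb
        · simp only [if_neg hb]
          simp
      · simp only [if_neg hpq]
        simp only [sub_self, norm_zero]
        split_ifs
        · exact ht0.le
        · exact le_refl _
    · exact fun p => card_band ℓ M₀ p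
    · intro q
      refine le_trans (le_of_eq ?_) (card_band ℓ M₀ q)
      congr 1
      ext p
      simp only [Finset.mem_filter, Finset.mem_univ, true_and]
      rw [abs_sub_comm]
  refine ⟨main a ca hca' ?_, main b cb hcb' ?_⟩
  · intro i k e f hk
    have h1 := hFxy i
    rw [Prod.dist_eq, max_le_iff] at h1
    have hk' : k ∈ Finset.Icc (-(M₀ : ℤ)) M₀ := Finset.mem_Icc.mpr (abs_le.mp hk)
    have h2 := (dist_pi_le_iff ht0.le).mp h1.1 ⟨k, hk'⟩
    have h3 := (dist_pi_le_iff ht0.le).mp h2 e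
    have h4 := (dist_pi_le_iff ht0.le).mp h3 f
    rw [dist_eq_norm] at h4
    exact h4
  · intro i k e f hk
    have h1 := hFxy i
    rw [Prod.dist_eq, max_le_iff] at h1
    have hk' : k ∈ Finset.Icc (-(M₀ : ℤ)) M₀ := Finset.mem_Icc.mpr (abs_le.mp hk)
    have h2 := (dist_pi_le_iff ht0.le).mp h1.2 ⟨k, hk'⟩
    have h3 := (dist_pi_le_iff ht0.le).mp h2 e
    have h4 := (dist_pi_le_iff ht0.le).mp h3 f
    rw [dist_eq_norm] at h4
    exact h4

end Pool.Agent.H44.RC
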