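import Pool.Agent.H44.RC.R2

/-!
Module Q2 of the project RC: an invariant state gives a trace on the crossed product.
-/

open scoped ENNReal NNReal InnerProductSpace ComplexOrder
open Filter Topology Pool.Agent.H27.RC

noncomputable section

namespace Pool.Agent.H44.RC

variable {X : Type} [TopologicalSpace X] {h : X ≃ₜ X}

theorem norm_ent_le (a : Crossed h) (x : X) (i j : ℤ) : ‖ent a x i j‖ ≤ ‖a‖ := by
  classical
  unfold ent
  have h1 := lp.norm_apply_le_norm (p := 2) (by simp)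
    (cop a (lp.single 2 (j, x) (1 : ℂ))) (i, x)
  have h2 := (cop a).le_opNorm (lp.single 2 (j, x) (1 : ℂ))
  rw [lp.norm_single (by simp), norm_one, mul_one, norm_cop] at h2
  have h3 := h1.trans h2
  convert h3

theorem ent_neg (a : Crossed h) (x : X) (i j : ℤ) : ent (-a) x i j = -ent a x i j := by
  unfold ent
  rw [cop_neg]
  simp

theorem ent_sub (a b : Crossed h) (x : X) (i j : ℤ) :
    ent (a - b) x i j = ent a x i j - ent b x i j := by
  rw [sub_eq_add_neg, ent_add, ent_neg]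
  ring

theorem ent_smul (c : ℂ) (a : Crossed h) (x : X) (i j : ℤ) :
    ent (c • a) x i j = c * ent a x i j := by
  unfold ent
  rw [cop_smul]
  simp

/-- The property of the fibre representations. -/
def IsFib (ρ : X → (Crossed h →⋆ₐ[ℂ] (HZ →L[ℂ] HZ))) : Prop :=
  ∀ (x : X) (a : Crossed h) (i j : ℤ), ρ x a (lp.single 2 j (1 : ℂ)) i = ent a x i j

/-- Band elements. -/
def IsBandC (b : Crossed h) (r : ℕ) (c : ℤ → C(X, ℂ)) : Prop :=
  ∀ x i j, ent b x i j = if |i - j| ≤ (r : ℤ) then c (i - j) ((h ^ i) x) else 0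

/-- Density of the band elements. -/
def DenseBand (h : X ≃ₜ X) : Prop :=
  ∀ (a : Crossed h) (η : ℝ), 0 < η → ∃ (b : Crossed h) (r : ℕ) (c : ℤ → C(X, ℂ)),
      ‖a - b‖ ≤ η ∧ IsBandC b r c

theorem pow_add_apply (k l : ℤ) (x : X) : (h ^ (k + l)) x = (h ^ k) ((h ^ l) x) := by
  rw [zpow_add]
  rfl

theorem ent_cov_band {b : Crossed h} {r : ℕ} {c : ℤ → C(X, ℂ)} (hb : IsBandC b r c)
    (k : ℤ) (x : X) (i j : ℤ) : ent b ((h ^ k) x) i j = ent b x (i + k) (j + k) := by
  rw [hb, hb, pow_add_apply]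
  congr 1
  · simp
  · congr 2
    ring

theorem ent_cov (hd : DenseBand h) (a : Crossed h) (k : ℤ) (x : X) (i j : ℤ) :
    ent a ((h ^ k) x) i j = ent a x (i + k) (j + k) := by
  refine eq_of_forall_dist_le fun ε hε => ?_
  obtain ⟨b, r, c, hab, hb⟩ := hd a (ε / 2) (by positivity)
  have h1 := norm_ent_le (a - b) ((h ^ k) x) i j
  have h2 := norm_ent_le (a - b) x (i + k) (j + k)
  rw [ent_sub] at h1 h2
  rw [ent_cov_band hb] at h1
  rw [dist_eq_norm]
  have h3 : ent a ((h ^ k) x) i j - ent a x (i + k) (j + k) =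
      (ent a ((h ^ k) x) i j - ent b x (i + k) (j + k)) -
        (ent a x (i + k) (j + k) - ent b x (i + k) (j + k)) := by ring
  rw [h3]
  refine (norm_sub_le _ _).trans ?_
  linarith

theorem ent_continuous (hd : DenseBand h) (a : Crossed h) (i j : ℤ) :
    Continuous fun x => ent a x i j := by
  have h1 : ∀ n : ℕ, ∃ (b : Crossed h) (r : ℕ) (c : ℤ → C(X, ℂ)),
      ‖a - b‖ ≤ 1 / ((n : ℝ) + 1) ∧ IsBandC b r c := fun n => hd a _ (by positivity)
  choose b r c hab hb using h1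
  have hcont : ∀ n, Continuous fun x => ent (b n) x i j := by
    intro n
    simp only [hb n _ i j]
    split_ifs
    · exact (c n (i - j)).continuous.comp (h ^ i).continuous
    · exact continuous_const
  have hlim : TendstoUniformly (fun n x => ent (b n) x i j) (fun x => ent a x i j) atTop := by
    rw [Metric.tendstoUniformly_iff]
    intro ε hε
    have h2 : Tendsto (fun n : ℕ => 1 / ((n : ℝ) + 1)) atTop (𝓝 0) :=
      tendsto_one_div_add_atTop_nhds_zero_nat
    filter_upwards [h2.eventually (gt_mem_nhds hε)] with n hn x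
    rw [dist_eq_norm, ← ent_sub]
    exact ((norm_ent_le _ _ _ _).trans (hab n)).trans_lt hn
  exact hlim.continuous (Filter.Frequently.of_forall hcont)

section fibre

variable {ρ : X → (Crossed h →⋆ₐ[ℂ] (HZ →L[ℂ] HZ))}

theorem ent_star (hρ : IsFib ρ) (a : Crossed h) (x : X) (i j : ℤ) :
    ent (star a) x i j = star (ent a x j i) := by
  rw [← hρ, ← hρ, map_star, ContinuousLinearMap.star_eq_adjoint]
  have h1 := lp.inner_single_left (𝕜 := ℂ) (G := fun _ : ℤ => ℂ) i (1 : ℂ)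
    (ContinuousLinearMap.adjoint (ρ x a) (lp.single 2 j (1 : ℂ)))
  rw [ContinuousLinearMap.adjoint_inner_right] at h1
  have h2 := lp.inner_single_left (𝕜 := ℂ) (G := fun _ : ℤ => ℂ) j (1 : ℂ)
    (ρ x a (lp.single 2 i (1 : ℂ)))
  rw [← inner_conj_symm, h2] at h1
  simpa using h1.symm

theorem ent_mul_band (hρ : IsFib ρ) (a b : Crossed h) {r : ℕ} {c : ℤ → C(X, ℂ)}
    (hb : IsBandC b r c) (x : X) (i j : ℤ) :
    ent (a * b) x i j = ∑ m ∈ Finset.Icc (-(r : ℤ)) r, ent a x i (j + m) * ent b x (j + m) j := by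
  have h1 : ρ x b (lp.single 2 j (1 : ℂ)) =
      ∑ m ∈ Finset.Icc (-(r : ℤ)) r, ent b x (j + m) j • (lp.single 2 (j + m) (1 : ℂ) : HZ) := by
    apply lp.ext
    funext i'
    rw [hρ, lp.coeFn_sum, Finset.sum_apply]
    have h2 : ∀ m ∈ Finset.Icc (-(r : ℤ)) r,
        (ent b x (j + m) j • (lp.single 2 (j + m) (1 : ℂ) : HZ) : HZ) i' =
          if i' - j = m then ent b x (j + m) j else 0 := by
      intro m _
      rw [lp.coeFn_smul, Pi.smul_apply, lp.single_apply]
      by_cases hm : i' - j = m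
      · have : i' = j + m := by omega
        subst this
        simp
      · have : i' ≠ j + m := by omega
        simp [this, hm]
    rw [Finset.sum_congr rfl h2, Finset.sum_ite_eq]
    by_cases hr : |i' - j| ≤ (r : ℤ)
    · have : i' - j ∈ Finset.Icc (-(r : ℤ)) r := by
        rw [Finset.mem_Icc]
        exact abs_le.mp hr
      rw [if_pos this]
      congr 1
      ring
    · have : i' - j ∉ Finset.Icc (-(r : ℤ)) r := by
        rw [Finset.mem_Icc]
        exact fun h => hr (abs_le.mpr h)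
      rw [if_neg this, hb, if_neg hr]
  rw [← hρ, map_mul, ContinuousLinearMap.mul_apply, h1, map_sum, lp.coeFn_sum, Finset.sum_apply]
  refine Finset.sum_congr rfl fun m _ => ?_
  rw [map_smul, lp.coeFn_smul, Pi.smul_apply, hρ, smul_eq_mul, mul_comm]

theorem ent_band_mul (hρ : IsFib ρ) (a b : Crossed h) {r : ℕ} {c : ℤ → C(X, ℂ)}
    (hb : IsBandC b r c) (x : X) (i j : ℤ) :
    ent (b * a) x i j = ∑ m ∈ Finset.Icc (-(r : ℤ)) r, ent b x i (i + m) * ent a x (i + m) j := by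
  -- the adjoint of a band element acts on basis vectors with finite support
  have h1 : ρ x (star b) (lp.single 2 i (1 : ℂ)) =
      ∑ m ∈ Finset.Icc (-(r : ℤ)) r, star (ent b x i (i + m)) •
        (lp.single 2 (i + m) (1 : ℂ) : HZ) := by
    apply lp.ext
    funext i'
    rw [hρ, ent_star hρ, lp.coeFn_sum, Finset.sum_apply]
    have h2 : ∀ m ∈ Finset.Icc (-(r : ℤ)) r,
        (star (ent b x i (i + m)) • (lp.single 2 (i + m) (1 : ℂ) : HZ) : HZ) i' =
          if i' - i = m then star (ent b x i (i + m)) else 0 := by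
      intro m _
      rw [lp.coeFn_smul, Pi.smul_apply, lp.single_apply]
      by_cases hm : i' - i = m
      · have : i' = i + m := by omega
        subst this
        simp
      · have : i' ≠ i + m := by omega
        simp [this, hm]
    rw [Finset.sum_congr rfl h2, Finset.sum_ite_eq]
    by_cases hr : |i - i'| ≤ (r : ℤ)
    · have : i' - i ∈ Finset.Icc (-(r : ℤ)) r := by
        rw [Finset.mem_Icc]
        rw [abs_sub_comm] at hr
        exact abs_le.mp hr
      rw [if_pos this]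
      congr 2
      ring
    · have : i' - i ∉ Finset.Icc (-(r : ℤ)) r := by
        rw [Finset.mem_Icc]
        intro h
        apply hr
        rw [abs_sub_comm]
        exact abs_le.mpr h
      rw [if_neg this, hb, if_neg hr, star_zero]
  have h3 := lp.inner_single_left (𝕜 := ℂ) (G := fun _ : ℤ => ℂ) i (1 : ℂ)
    (ρ x b (ρ x a (lp.single 2 j (1 : ℂ))))
  have h4 : ⟪(lp.single 2 i (1 : ℂ) : HZ), ρ x b (ρ x a (lp.single 2 j (1 : ℂ)))⟫_ℂ =
      ⟪ρ x (star b) (lp.single 2 i (1 : ℂ)), ρ x a (lp.single 2 j (1 : ℂ))⟫_ℂ := by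
    rw [map_star, ContinuousLinearMap.star_eq_adjoint, ContinuousLinearMap.adjoint_inner_left]
  rw [h4, h1, sum_inner] at h3
  rw [← hρ, map_mul, ContinuousLinearMap.mul_apply]
  have h5 : ⟪(1 : ℂ), (ρ x b (ρ x a (lp.single 2 j (1 : ℂ)))) i⟫_ℂ =
      (ρ x b (ρ x a (lp.single 2 j (1 : ℂ)))) i := by simp
  rw [h5] at h3
  rw [← h3]
  refine Finset.sum_congr rfl fun m _ => ?_
  rw [inner_smul_left, lp.inner_single_left, hρ]
  simp

theorem ent_star_mul_self (hρ : IsFib ρ) (a : Crossed h) (x : X) (j : ℤ) :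
    ent (star a * a) x j j = ((‖ρ x a (lp.single 2 j (1 : ℂ))‖ ^ 2 : ℝ) : ℂ) := by
  have h3 := lp.inner_single_left (𝕜 := ℂ) (G := fun _ : ℤ => ℂ) j (1 : ℂ)
    (ρ x (star a * a) (lp.single 2 j (1 : ℂ)))
  rw [hρ] at h3
  have h4 : ⟪(lp.single 2 j (1 : ℂ) : HZ), ρ x (star a * a) (lp.single 2 j (1 : ℂ))⟫_ℂ =
      ⟪ρ x a (lp.single 2 j (1 : ℂ)), ρ x a (lp.single 2 j (1 : ℂ))⟫_ℂ := by
    rw [map_mul, ContinuousLinearMap.mul_apply, map_star, ContinuousLinearMap.star_eq_adjoint,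
      ContinuousLinearMap.adjoint_inner_right]
  rw [h4, inner_self_eq_norm_sq_to_K] at h3
  simp only [RCLike.inner_apply, map_one, mul_one] at h3
  rw [← h3]
  push_cast
  rfl

end fibre

/-- The conditional expectation onto `C(X)`. -/
def EE0 (hd : DenseBand h) (a : Crossed h) : C(X, ℂ) :=
  ⟨fun x => ent a x 0 0, ent_continuous hd a 0 0⟩

section state

variable [CompactSpace X] {Λ : C(X, ℂ) →ₗ[ℂ] ℂ}

theorem state_real_le (hΛ : IsInvState h Λ) (f : C(X, ℂ)) (hf : ∀ x, (f x).im = 0) :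
    ‖Λ f‖ ≤ ‖f‖ := by
  have h1 := hΛ.nonneg ((‖f‖ : ℂ) • 1 - f) (by
    intro x
    have hx := f.norm_coe_le_norm x
    have hre := (Complex.re_le_norm (f x)).trans hx
    constructor
    · simp
      linarith
    · simp [hf x])
  have h2 := hΛ.nonneg ((‖f‖ : ℂ) • 1 + f) (by
    intro x
    have hx := f.norm_coe_le_norm x
    have hre := (Complex.re_le_norm (-f x))
    rw [norm_neg] at hre
    simp only [Complex.neg_re] at hre
    constructor
    · simp
      linarith
    · simp [hf x])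
  rw [map_sub, map_smul, hΛ.one] at h1
  rw [map_add, map_smul, hΛ.one] at h2
  simp at h1 h2
  have h3 : (Λ f).im = 0 := by linarith [h1.2]
  have h4 : Λ f = (((Λ f).re : ℝ) : ℂ) := by
    apply Complex.ext <;> simp [h3]
  rw [h4, Complex.norm_real, Real.norm_eq_abs, abs_le]
  constructor
  · linarith [h2.1]
  · linarith [h1.1]

theorem state_le (hΛ : IsInvState h Λ) (f : C(X, ℂ)) : ‖Λ f‖ ≤ 2 * ‖f‖ := by
  let u : C(X, ℂ) := ⟨fun x => ((f x).re : ℂ), by fun_prop⟩
  let v : C(X, ℂ) := ⟨fun x => ((f x).im : ℂ), by fun_prop⟩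
  have huv : f = u + Complex.I • v := by
    ext x
    change f x = ((f x).re : ℂ) + Complex.I * ((f x).im : ℂ)
    rw [mul_comm]
    exact (Complex.re_add_im (f x)).symm
  have hu : ‖u‖ ≤ ‖f‖ := by
    rw [ContinuousMap.norm_le _ (norm_nonneg _)]
    intro x
    change ‖((f x).re : ℂ)‖ ≤ _
    rw [Complex.norm_real, Real.norm_eq_abs]
    exact (Complex.abs_re_le_norm _).trans (f.norm_coe_le_norm x)
  have hv : ‖v‖ ≤ ‖f‖ := by
    rw [ContinuousMap.norm_le _ (norm_nonneg _)]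
    intro x
    change ‖((f x).im : ℂ)‖ ≤ _
    rw [Complex.norm_real, Real.norm_eq_abs]
    exact (Complex.abs_im_le_norm _).trans (f.norm_coe_le_norm x)
  have h1 := state_real_le hΛ u (fun x => Complex.ofReal_im _)
  have h2 := state_real_le hΛ v (fun x => Complex.ofReal_im _)
  have h3 : Λ f = Λ u + Complex.I * Λ v := by
    conv_lhs => rw [huv]
    rw [map_add, map_smul, smul_eq_mul]
  rw [h3]
  refine (norm_add_le _ _).trans ?_
  rw [norm_mul, Complex.norm_I, one_mul]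
  linarith

theorem state_inv (hΛ : IsInvState h Λ) (f : C(X, ℂ)) (k : ℤ) :
    Λ (f.comp ((h ^ k : X ≃ₜ X) : C(X, X))) = Λ f := by
  have hnat : ∀ (n : ℕ) (f : C(X, ℂ)), Λ (f.comp ((h ^ (n : ℤ) : X ≃ₜ X) : C(X, X))) = Λ f := by
    intro n
    induction n with
    | zero =>
      intro f
      rfl
    | succ n ih =>
      intro f
      have h1 := hΛ.inv (f.comp ((h ^ (n : ℤ) : X ≃ₜ X) : C(X, X)))
      rw [ih f] at h1
      rw [← h1]
      refine congrArg Λ (ContinuousMap.ext fun x => ?_)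
      change f ((h ^ ((n + 1 : ℕ) : ℤ)) x) = f ((h ^ (n : ℤ)) (h x))
      rw [Nat.cast_add, Nat.cast_one, pow_add_apply, zpow_one]
  obtain ⟨n, hn | hn⟩ := k.eq_nat_or_neg
  · rw [hn]
    exact hnat n f
  · rw [hn]
    have h1 := hnat n (f.comp ((h ^ (-(n : ℤ)) : X ≃ₜ X) : C(X, X)))
    rw [← h1]
    congr 1
    ext x
    change f ((h ^ (-(n : ℤ))) ((h ^ (n : ℤ)) x)) = f x
    rw [← pow_add_apply]
    simp

end state

section trace

variable [CompactSpace X] {Λ : C(X, ℂ) →ₗ[ℂ] ℂ}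

theorem EE0_add (hd : DenseBand h) (a b : Crossed h) : EE0 hd (a + b) = EE0 hd a + EE0 hd b := by
  ext x
  exact ent_add a b x 0 0

theorem EE0_smul (hd : DenseBand h) (c : ℂ) (a : Crossed h) : EE0 hd (c • a) = c • EE0 hd a := by
  ext x
  exact ent_smul c a x 0 0

/-- The trace as a linear functional. -/
def trL (hd : DenseBand h) (Λ : C(X, ℂ) →ₗ[ℂ] ℂ) : Crossed h →ₗ[ℂ] ℂ where
  toFun a := Λ (EE0 hd a)
  map_add' a b := by rw [EE0_add, map_add]
  map_smul' c a := by rw [EE0_smul, map_smul]; rfl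

theorem trL_apply (hd : DenseBand h) (Λ : C(X, ℂ) →ₗ[ℂ] ℂ) (a : Crossed h) :
    trL hd Λ a = Λ (EE0 hd a) := rfl

theorem norm_trL_le (hd : DenseBand h) (hΛ : IsInvState h Λ) (a : Crossed h) :
    ‖trL hd Λ a‖ ≤ 2 * ‖a‖ := by
  refine (state_le hΛ _).trans ?_
  have : ‖EE0 hd a‖ ≤ ‖a‖ := by
    rw [ContinuousMap.norm_le _ (norm_nonneg _)]
    intro x
    exact norm_ent_le a x 0 0
  linarith

theorem trL_comm_band (hd : DenseBand h) (hΛ : IsInvState h Λ)
    {ρ : X → (Crossed h →⋆ₐ[ℂ] (HZ →L[ℂ] HZ))} (hρ : IsFib ρ) (a b : Crossed h) {r : ℕ}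
    {c : ℤ → C(X, ℂ)} (hb : IsBandC b r c) : trL hd Λ (a * b) = trL hd Λ (b * a) := by
  let g : ℤ → C(X, ℂ) := fun m =>
    ⟨fun x => ent a x 0 m * ent b x m 0, (ent_continuous hd a 0 m).mul (ent_continuous hd b m 0)⟩
  have h1 : EE0 hd (a * b) = ∑ m ∈ Finset.Icc (-(r : ℤ)) r, g m := by
    ext x
    change ent (a * b) x 0 0 = (∑ m ∈ Finset.Icc (-(r : ℤ)) r, g m : C(X, ℂ)) x
    rw [ent_mul_band hρ a b hb, ContinuousMap.sum_apply]
    refine Finset.sum_congr rfl fun m _ => ?_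
    rw [zero_add]
    rfl
  have h2 : EE0 hd (b * a) = ∑ m ∈ Finset.Icc (-(r : ℤ)) r,
      (g (-m)).comp ((h ^ m : X ≃ₜ X) : C(X, X)) := by
    ext x
    change ent (b * a) x 0 0 = (∑ m ∈ Finset.Icc (-(r : ℤ)) r,
      (g (-m)).comp ((h ^ m : X ≃ₜ X) : C(X, X)) : C(X, ℂ)) x
    rw [ent_band_mul hρ a b hb, ContinuousMap.sum_apply]
    refine Finset.sum_congr rfl fun m _ => ?_
    change ent b x 0 (0 + m) * ent a x (0 + m) 0 =
      ent a ((h ^ m) x) 0 (-m) * ent b ((h ^ m) x) (-m) 0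
    rw [ent_cov hd a, ent_cov hd b]
    simp [mul_comm]
  rw [trL_apply, trL_apply, h1, h2, map_sum, map_sum]
  have h3 : ∀ m ∈ Finset.Icc (-(r : ℤ)) r, Λ ((g (-m)).comp ((h ^ m : X ≃ₜ X) : C(X, X))) =
      Λ (g (-m)) := fun m _ => state_inv hΛ (g (-m)) m
  rw [Finset.sum_congr rfl h3]
  refine Finset.sum_nbij' (fun m => -m) (fun m => -m) ?_ ?_ ?_ ?_ ?_
  · intro m hm
    rw [Finset.mem_Icc] at hm ⊢
    omega
  · intro m hm
    rw [Finset.mem_Icc] at hm ⊢
    omega
  · intro m _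
    simp
  · intro m _
    simp
  · intro m _
    simp

theorem trL_comm (hd : DenseBand h) (hΛ : IsInvState h Λ)
    {ρ : X → (Crossed h →⋆ₐ[ℂ] (HZ →L[ℂ] HZ))} (hρ : IsFib ρ) (a b : Crossed h) :
    trL hd Λ (a * b) = trL hd Λ (b * a) := by
  refine eq_of_forall_dist_le fun ε hε => ?_
  obtain ⟨b', r, c, hbb, hb⟩ := hd b (ε / (4 * (‖a‖ + 1))) (by positivity)
  have h0 := trL_comm_band hd hΛ hρ a b' hb
  have h1 : ‖trL hd Λ (a * b) - trL hd Λ (a * b')‖ ≤ 2 * (‖a‖ * ‖b - b'‖) := by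
    rw [← map_sub, ← mul_sub]
    refine (norm_trL_le hd hΛ _).trans ?_
    linarith [norm_mul_le a (b - b')]
  have h2 : ‖trL hd Λ (b * a) - trL hd Λ (b' * a)‖ ≤ 2 * (‖a‖ * ‖b - b'‖) := by
    rw [← map_sub, ← sub_mul]
    refine (norm_trL_le hd hΛ _).trans ?_
    linarith [norm_mul_le (b - b') a]
  have h3 : ‖a‖ * ‖b - b'‖ ≤ ε / 4 := by
    calc ‖a‖ * ‖b - b'‖ ≤ (‖a‖ + 1) * (ε / (4 * (‖a‖ + 1))) :=
          mul_le_mul (by linarith) hbb (norm_nonneg _) (by positivity)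
      _ = ε / 4 := by
          have : ‖a‖ + 1 ≠ 0 := by positivity
          field_simp
  rw [dist_eq_norm]
  have h4 : trL hd Λ (a * b) - trL hd Λ (b * a) =
      (trL hd Λ (a * b) - trL hd Λ (a * b')) - (trL hd Λ (b * a) - trL hd Λ (b' * a)) := by
    rw [h0]
    ring
  rw [h4]
  refine (norm_sub_le _ _).trans ?_
  linarith

theorem trL_nonneg (hd : DenseBand h) (hΛ : IsInvState h Λ)
    {ρ : X → (Crossed h →⋆ₐ[ℂ] (HZ →L[ℂ] HZ))} (hρ : IsFib ρ) (a : Crossed h) :
    0 ≤ (trL hd Λ (star a * a)).re ∧ (trL hd Λ (star a * a)).im = 0 := by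
  refine hΛ.nonneg _ fun x => ?_
  change 0 ≤ (ent (star a * a) x 0 0).re ∧ (ent (star a * a) x 0 0).im = 0
  rw [ent_star_mul_self hρ]
  rw [Complex.ofReal_re, Complex.ofReal_im]
  exact ⟨sq_nonneg _, rfl⟩

theorem ent_one {ρ : X → (Crossed h →⋆ₐ[ℂ] (HZ →L[ℂ] HZ))} (hρ : IsFib ρ) (x : X) (j : ℤ) :
    ent (1 : Crossed h) x j j = 1 := by
  rw [← hρ, map_one]
  simp [lp.single_apply]

/-- The trace on the matrix algebras as a quasitrace. -/
def qtr (hd : DenseBand h) (hΛ : IsInvState h Λ)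
    {ρ : X → (Crossed h →⋆ₐ[ℂ] (HZ →L[ℂ] HZ))} (hρ : IsFib ρ) : QuasiTrace (Crossed h) where
  toFun n T := ∑ e : Fin n, trL hd Λ (T e e)
  nonneg n x := by
    have h1 : ∀ e : Fin n, trL hd Λ ((star x * x) e e) =
        ∑ f : Fin n, trL hd Λ (star (x f e) * x f e) := by
      intro e
      rw [CStarMatrix.mul_apply, map_sum]
      rfl
    simp only [h1, Complex.re_sum, Complex.im_sum]
    refine ⟨Finset.sum_nonneg fun e _ => Finset.sum_nonneg fun f _ =>
      (trL_nonneg hd hΛ hρ _).1, Finset.sum_eq_zero fun e _ => Finset.sum_eq_zero fun f _ =>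
      (trL_nonneg hd hΛ hρ _).2⟩
  tracial n x := by
    have h1 : ∀ e : Fin n, trL hd Λ ((star x * x) e e) =
        ∑ f : Fin n, trL hd Λ (star (x f e) * x f e) := by
      intro e
      rw [CStarMatrix.mul_apply, map_sum]
      rfl
    have h2 : ∀ f : Fin n, trL hd Λ ((x * star x) f f) =
        ∑ e : Fin n, trL hd Λ (x f e * star (x f e)) := by
      intro f
      rw [CStarMatrix.mul_apply, map_sum]
      rfl
    rw [Finset.sum_congr rfl fun e _ => h1 e, Finset.sum_congr rfl fun f _ => h2 f,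
      Finset.sum_comm]
    exact Finset.sum_congr rfl fun f _ => Finset.sum_congr rfl fun e _ =>
      trL_comm hd hΛ hρ _ _
  add_I n a b _ _ := by
    simp only [CStarMatrix.add_apply, CStarMatrix.smul_apply, map_add, map_smul, smul_eq_mul,
      Finset.sum_add_distrib, Finset.mul_sum]
  linear n S _ _ x _ y _ c := by
    simp only [CStarMatrix.add_apply, CStarMatrix.smul_apply, map_add, map_smul, smul_eq_mul,
      Finset.sum_add_distrib, Finset.mul_sum]
  compat n x := by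
    rw [Fin.sum_univ_castSucc]
    have h1 : corner x (Fin.last n) (Fin.last n) = 0 := by
      refine dif_neg ?_
      simp
    have h2 : ∀ e : Fin n, corner x e.castSucc e.castSucc = x e e := by
      intro e
      exact dif_pos (c := ((e.castSucc : Fin (n + 1)) : ℕ) < n ∧ ((e.castSucc : Fin (n + 1)) : ℕ) < n)
        ⟨e.2, e.2⟩
    rw [h1, map_zero, add_zero]
    exact Finset.sum_congr rfl fun e _ => by rw [h2]
  normalized := by
    have h1 : (1 : Mat (Crossed h) 1) 0 0 = 1 := CStarMatrix.one_apply_eq 0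
    rw [Fin.sum_univ_one, h1, trL_apply]
    have h2 : EE0 hd (1 : Crossed h) = 1 := by
      ext x
      exact ent_one hρ x 0
    rw [h2, hΛ.one]

end trace

/-- Module Q2. -/
theorem q2 (hR1 : R1Stmt) : Q2Stmt := by
  intro X _ _ h Λ hΛ
  obtain ⟨⟨ρ, hρ⟩, hinj, helem, hdense⟩ := hR1 X h
  refine ⟨qtr hdense hΛ hρ, ?_⟩
  intro n T F hF
  change ∑ e : Fin n, trL hdense Λ (T e e) = Λ F
  have h1 : F = ∑ e : Fin n, EE0 hdense (T e e) := by
    ext x
    rw [hF, ContinuousMap.sum_apply]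
    rfl
  rw [h1, map_sum]
  rfl

end Pool.Agent.H44.RC
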