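import Pool.Agent.H27.RC.Stmts

/-!
Module R2 of the project RC: the model of the matrix algebra over the crossed product.
-/

open scoped ENNReal NNReal InnerProductSpace
open Filter Topology Pool.Agent.H27.RC

noncomputable section

namespace Pool.Agent.H44.RC

/-- The Hilbert space of square summable sequences. -/
abbrev HZ := lp (fun _ : ℤ => ℂ) 2

section incl

variable {n : ℕ}

theorem inj_pair (e : Fin n) : Function.Injective (fun i : ℤ => ((i, e) : ℤ × Fin n)) := by
  intro i j h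
  simpa using h

theorem incl_summable (e : Fin n) (ξ : HZ) :
    Summable fun p : ℤ × Fin n => ‖(if p.2 = e then ξ p.1 else 0 : ℂ)‖ ^ (2 : ℝ≥0∞).toReal := by
  have h2 : (0 : ℝ) < (2 : ℝ≥0∞).toReal := by simp
  have h := (lp.memℓp ξ).summable h2
  refine ((inj_pair e).summable_iff ?_).mp ?_
  · intro p hp
    have : p.2 ≠ e := by
      intro h
      exact hp ⟨p.1, by rw [← h]⟩
    simp [this]
  · simpa [Function.comp_def] using h

/-- The inclusion of the square summable sequences as the `e`-th coordinate. -/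
def inclV (e : Fin n) (ξ : HZ) : Hil n :=
  ⟨fun p => if p.2 = e then ξ p.1 else 0, memℓp_gen (incl_summable e ξ)⟩

theorem inclV_apply (e : Fin n) (ξ : HZ) (p : ℤ × Fin n) :
    inclV e ξ p = if p.2 = e then ξ p.1 else 0 := rfl

theorem norm_inclV (e : Fin n) (ξ : HZ) : ‖inclV e ξ‖ = ‖ξ‖ := by
  have h2 : (0 : ℝ) < (2 : ℝ≥0∞).toReal := by simp
  rw [lp.norm_eq_tsum_rpow h2, lp.norm_eq_tsum_rpow h2]
  congr 1
  rw [← (inj_pair e).tsum_eq]
  · simp [inclV_apply]
  · intro p hp
    by_contra hne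
    apply hp
    have : p.2 ≠ e := by
      intro h
      exact hne ⟨p.1, by rw [← h]⟩
    simp [inclV_apply, this]

/-- The inclusion as a continuous linear map. -/
def incl (e : Fin n) : HZ →L[ℂ] Hil n :=
  LinearMap.mkContinuous
    { toFun := inclV e
      map_add' := by
        intro ξ η
        apply lp.ext
        funext p
        simp only [inclV_apply, lp.coeFn_add, Pi.add_apply]
        split_ifs <;> simp
      map_smul' := by
        intro c ξ
        apply lp.ext
        funext p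
        simp only [inclV_apply, lp.coeFn_smul, Pi.smul_apply, RingHom.id_apply]
        split_ifs <;> simp } 1 (by
      intro ξ
      change ‖inclV e ξ‖ ≤ _
      rw [norm_inclV, one_mul])

theorem incl_apply (e : Fin n) (ξ : HZ) (p : ℤ × Fin n) :
    incl e ξ p = if p.2 = e then ξ p.1 else 0 := rfl

theorem incl_single (e : Fin n) (j : ℤ) : incl e (lp.single 2 j (1 : ℂ)) = del (j, e) := by
  apply lp.ext
  funext p
  rw [incl_apply, del]
  obtain ⟨i, f⟩ := p
  by_cases hf : f = e
  · by_cases hi : i = j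
    · subst hf hi
      simp [lp.single_apply]
    · have : (i, f) ≠ (j, e) := fun h => hi (by simpa using (Prod.mk.inj h).1)
      simp [lp.single_apply, hf, hi]
  · have : (i, f) ≠ (j, e) := fun h => hf (by simpa using (Prod.mk.inj h).2)
    simp [lp.single_apply, hf]

/-- The restriction to the `e`-th coordinate. -/
def rst (e : Fin n) : Hil n →L[ℂ] HZ := ContinuousLinearMap.adjoint (incl e)

theorem rst_apply (e : Fin n) (η : Hil n) (i : ℤ) : rst e η i = η (i, e) := by
  have h1 := lp.inner_single_left (𝕜 := ℂ) (G := fun _ : ℤ => ℂ) i (1 : ℂ) (rst e η)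
  have h2 := lp.inner_single_left (𝕜 := ℂ) (G := fun _ : ℤ × Fin n => ℂ) (i, e) (1 : ℂ) η
  have h3 : ⟪(lp.single 2 i (1 : ℂ) : HZ), rst e η⟫_ℂ = ⟪(del (i, e) : Hil n), η⟫_ℂ := by
    rw [rst, ContinuousLinearMap.adjoint_inner_right, incl_single]
  rw [h1] at h3
  rw [del, h2] at h3
  simpa using h3

theorem rst_incl (e f : Fin n) : rst e ∘L incl f = if e = f then ContinuousLinearMap.id ℂ HZ else 0 := by
  ext ξ i
  rw [ContinuousLinearMap.comp_apply, rst_apply, incl_apply]
  by_cases h : e = f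
  · simp [h]
  · simp [h]

theorem sum_incl_rst : ∑ e : Fin n, incl e ∘L rst e = ContinuousLinearMap.id ℂ (Hil n) := by
  ext η p
  obtain ⟨i, f⟩ := p
  rw [ContinuousLinearMap.sum_apply]
  have : ((∑ e : Fin n, (incl e ∘L rst e) η : Hil n) : ℤ × Fin n → ℂ) (i, f) =
      ∑ e : Fin n, ((incl e ∘L rst e) η : Hil n) (i, f) := by
    rw [lp.coeFn_sum]
    simp
  rw [this, Finset.sum_eq_single f]
  · rw [ContinuousLinearMap.comp_apply, incl_apply, rst_apply]
    simp
  · intro b _ hb
    rw [ContinuousLinearMap.comp_apply, incl_apply]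
    simp [Ne.symm hb]
  · intro h
    exact absurd (Finset.mem_univ f) h

theorem rst_del (e : Fin n) (q : ℤ × Fin n) :
    rst e (del q) = if q.2 = e then (lp.single 2 q.1 (1 : ℂ) : HZ) else 0 := by
  obtain ⟨j, f⟩ := q
  rw [← incl_single, ← ContinuousLinearMap.comp_apply, rst_incl]
  by_cases h : e = f
  · simp [h]
  · simp [h, Ne.symm h]

end incl

section amp

variable {A : Type} [CStarAlgebra A] [PartialOrder A] [StarOrderedRing A]

/-- The amplification of a representation. -/
def ampl (n : ℕ) (ρ : A →⋆ₐ[ℂ] (HZ →L[ℂ] HZ)) (T : Mat A n) : Hil n →L[ℂ] Hil n :=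
  ∑ e : Fin n, ∑ f : Fin n, incl e ∘L ρ (T e f) ∘L rst f

theorem comp_key {n : ℕ} (a b : HZ →L[ℂ] HZ) (e f g k : Fin n) :
    (incl e ∘L a ∘L rst f) * (incl g ∘L b ∘L rst k) =
      if f = g then incl e ∘L (a * b) ∘L rst k else 0 := by
  have h := rst_incl f g
  have h1 : (incl e ∘L a ∘L rst f) * (incl g ∘L b ∘L rst k) =
      incl e ∘L a ∘L (rst f ∘L incl g) ∘L b ∘L rst k := by
    rfl
  rw [h1, h]
  split_ifs with hfg
  · rfl
  · ext ξ p
    simp

theorem ampl_mul (n : ℕ) (ρ : A →⋆ₐ[ℂ] (HZ →L[ℂ] HZ)) (S T : Mat A n) :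
    ampl n ρ (S * T) = ampl n ρ S * ampl n ρ T := by
  unfold ampl
  rw [Finset.sum_mul]
  refine Finset.sum_congr rfl fun e _ => ?_
  rw [Finset.sum_mul]
  simp only [Finset.mul_sum, comp_key]
  have h1 : ∀ f : Fin n, ∑ g : Fin n, ∑ k : Fin n,
      (if f = g then incl e ∘L (ρ (S e f) * ρ (T g k)) ∘L rst k else 0) =
      ∑ k : Fin n, incl e ∘L (ρ (S e f) * ρ (T f k)) ∘L rst k := by
    intro f
    rw [Finset.sum_eq_single f]
    · simp
    · intro g _ hg
      simp [Ne.symm hg]
    · intro h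
      exact absurd (Finset.mem_univ f) h
  rw [Finset.sum_congr rfl fun f _ => h1 f, Finset.sum_comm]
  refine Finset.sum_congr rfl fun k _ => ?_
  rw [CStarMatrix.mul_apply, map_sum]
  ext ξ p
  simp [ContinuousLinearMap.sum_apply]

theorem ampl_one (n : ℕ) (ρ : A →⋆ₐ[ℂ] (HZ →L[ℂ] HZ)) : ampl n ρ 1 = 1 := by
  unfold ampl
  have h1 : ∀ e : Fin n, ∑ f : Fin n, incl e ∘L ρ ((1 : Mat A n) e f) ∘L rst f =
      incl e ∘L rst e := by
    intro e
    rw [Finset.sum_eq_single e]
    · rw [CStarMatrix.one_apply_eq, map_one]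
      rfl
    · intro f _ hf
      rw [CStarMatrix.one_apply_ne (Ne.symm hf), map_zero]
      ext ξ p
      simp
    · intro h
      exact absurd (Finset.mem_univ e) h
  rw [Finset.sum_congr rfl fun e _ => h1 e, sum_incl_rst]
  rfl

theorem ampl_add (n : ℕ) (ρ : A →⋆ₐ[ℂ] (HZ →L[ℂ] HZ)) (S T : Mat A n) :
    ampl n ρ (S + T) = ampl n ρ S + ampl n ρ T := by
  unfold ampl
  rw [← Finset.sum_add_distrib]
  refine Finset.sum_congr rfl fun e _ => ?_
  rw [← Finset.sum_add_distrib]
  refine Finset.sum_congr rfl fun f _ => ?_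
  rw [CStarMatrix.add_apply, map_add]
  ext ξ p
  simp

theorem ampl_smul (n : ℕ) (ρ : A →⋆ₐ[ℂ] (HZ →L[ℂ] HZ)) (c : ℂ) (T : Mat A n) :
    ampl n ρ (c • T) = c • ampl n ρ T := by
  unfold ampl
  rw [Finset.smul_sum]
  refine Finset.sum_congr rfl fun e _ => ?_
  rw [Finset.smul_sum]
  refine Finset.sum_congr rfl fun f _ => ?_
  rw [CStarMatrix.smul_apply, map_smul]
  ext ξ p
  simp

theorem ampl_star (n : ℕ) (ρ : A →⋆ₐ[ℂ] (HZ →L[ℂ] HZ)) (T : Mat A n) :
    ampl n ρ (star T) = star (ampl n ρ T) := by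
  unfold ampl
  rw [star_sum, Finset.sum_comm]
  refine Finset.sum_congr rfl fun f _ => ?_
  rw [star_sum]
  refine Finset.sum_congr rfl fun e _ => ?_
  rw [CStarMatrix.star_apply, map_star]
  rw [ContinuousLinearMap.star_eq_adjoint, ContinuousLinearMap.star_eq_adjoint,
    ContinuousLinearMap.adjoint_comp, ContinuousLinearMap.adjoint_comp]
  rw [rst, rst, ContinuousLinearMap.adjoint_adjoint]
  rfl

/-- The amplification as a homomorphism. -/
def amplHom (n : ℕ) (ρ : A →⋆ₐ[ℂ] (HZ →L[ℂ] HZ)) : Mat A n →⋆ₐ[ℂ] (Hil n →L[ℂ] Hil n) where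
  toFun := ampl n ρ
  map_one' := ampl_one n ρ
  map_mul' := ampl_mul n ρ
  map_zero' := by
    have := ampl_smul n ρ 0 (0 : Mat A n)
    simpa using this
  map_add' := ampl_add n ρ
  commutes' := by
    intro c
    rw [Algebra.algebraMap_eq_smul_one, ampl_smul, ampl_one, Algebra.algebraMap_eq_smul_one]
  map_star' := ampl_star n ρ

theorem entry_ampl (n : ℕ) (ρ : A →⋆ₐ[ℂ] (HZ →L[ℂ] HZ)) (T : Mat A n) (p q : ℤ × Fin n) :
    entry (ampl n ρ T) p q = ρ (T p.2 q.2) (lp.single 2 q.1 (1 : ℂ)) p.1 := by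
  unfold entry ampl
  rw [ContinuousLinearMap.sum_apply, lp.coeFn_sum, Finset.sum_apply,
    Finset.sum_eq_single p.2]
  · rw [ContinuousLinearMap.sum_apply, lp.coeFn_sum, Finset.sum_apply,
      Finset.sum_eq_single q.2]
    · rw [ContinuousLinearMap.comp_apply, ContinuousLinearMap.comp_apply, rst_del, incl_apply]
      simp
    · intro f _ hf
      rw [ContinuousLinearMap.comp_apply, ContinuousLinearMap.comp_apply, rst_del, incl_apply]
      simp [Ne.symm hf]
    · intro h
      exact absurd (Finset.mem_univ q.2) h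
  · intro e _ he
    rw [ContinuousLinearMap.sum_apply, lp.coeFn_sum, Finset.sum_apply]
    refine Finset.sum_eq_zero fun f _ => ?_
    rw [ContinuousLinearMap.comp_apply, incl_apply]
    simp [Ne.symm he]
  · intro h
    exact absurd (Finset.mem_univ p.2) h

end amp

section entries

variable {X : Type} [TopologicalSpace X] {h : X ≃ₜ X}

theorem ent_add (a b : Crossed h) (x : X) (i j : ℤ) : ent (a + b) x i j = ent a x i j + ent b x i j := by
  unfold ent
  rw [cop_add]
  simp

theorem ent_zero (x : X) (i j : ℤ) : ent (0 : Crossed h) x i j = 0 := by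
  unfold ent
  rw [cop_zero]
  simp

theorem ent_sum {ι : Type*} (s : Finset ι) (a : ι → Crossed h) (x : X) (i j : ℤ) :
    ent (∑ k ∈ s, a k) x i j = ∑ k ∈ s, ent (a k) x i j := by
  classical
  induction s using Finset.induction_on with
  | empty => simp [ent_zero]
  | insert k s hk ih => rw [Finset.sum_insert hk, Finset.sum_insert hk, ent_add, ih]

end entries

theorem exists_close {A : Type} [CStarAlgebra A] [PartialOrder A] [StarOrderedRing A] (n : ℕ)
    (T : Mat A n) {η : ℝ} (hη : 0 < η) :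
    ∃ δ : ℝ, 0 < δ ∧ ∀ S : Mat A n, (∀ e f, ‖T e f - S e f‖ ≤ δ) → ‖T - S‖ ≤ η := by
  have hc : Continuous (fun M : Fin n → Fin n → A => (CStarMatrix.ofMatrix (M : Matrix (Fin n) (Fin n) A) : Mat A n)) :=
    continuous_id
  have h1 := Metric.continuous_iff.mp hc (fun e f => T e f) η hη
  obtain ⟨δ, hδ, h2⟩ := h1
  refine ⟨δ / 2, by positivity, ?_⟩
  intro S hS
  have h3 : dist (fun e f => S e f) (fun e f => T e f) < δ := by
    refine lt_of_le_of_lt ?_ (show δ / 2 < δ by linarith)
    rw [dist_pi_le_iff (by positivity)]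
    intro e
    rw [dist_pi_le_iff (by positivity)]
    intro f
    rw [dist_eq_norm, norm_sub_rev]
    exact hS e f
  have h4 := h2 _ h3
  rw [dist_comm, dist_eq_norm] at h4
  exact h4.le

/-- Module R2. -/
theorem r2 (hR1 : R1Stmt) : R2Stmt := by
  intro X _ _ h n
  obtain ⟨⟨ρ, hρ⟩, hinj, helem, hdense⟩ := hR1 X h
  have hent : ∀ (x : X) (T : Mat (Crossed h) n) (p q : ℤ × Fin n),
      entry (amplHom n (ρ x) T) p q = ent (T p.2 q.2) x p.1 q.1 := by
    intro x T p q
    rw [← hρ]
    exact entry_ampl n (ρ x) T p q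
  refine ⟨⟨fun x => amplHom n (ρ x), ?_, ?_, ?_⟩, fun T x p q => hent x T p q⟩
  · intro T hT
    refine CStarMatrix.ext fun e f => ?_
    rw [CStarMatrix.zero_apply]
    refine hinj _ fun x i j => ?_
    have h1 := hent x T (i, e) (j, f)
    rw [hT x] at h1
    rw [← h1]
    simp [entry]
  · intro r c hc
    have hel : ∀ (k : ℤ) (e f : Fin n), ∃ a : Crossed h, ∀ x i j,
        ent a x i j = if i - j = k then c k ((h ^ i) x) e f else 0 := by
      intro k e f
      have hcont : Continuous fun x => c k x e f := by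
        have := hc k
        exact (continuous_apply f).comp ((continuous_apply e).comp this)
      obtain ⟨a, ha⟩ := helem ⟨fun x => c k x e f, hcont⟩ k
      exact ⟨a, ha⟩
    choose a ha using hel
    refine ⟨CStarMatrix.ofMatrix fun e f => ∑ k ∈ Finset.Icc (-(r : ℤ)) r, a k e f, ?_⟩
    refine ⟨hc, ?_⟩
    intro x p q
    have h1 := hent x (CStarMatrix.ofMatrix fun e f => ∑ k ∈ Finset.Icc (-(r : ℤ)) r, a k e f) p q
    rw [h1]
    have h2 : (CStarMatrix.ofMatrix (fun e f => ∑ k ∈ Finset.Icc (-(r : ℤ)) r, a k e f) :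
        Mat (Crossed h) n) p.2 q.2 = ∑ k ∈ Finset.Icc (-(r : ℤ)) r, a k p.2 q.2 := rfl
    rw [h2, ent_sum]
    simp only [ha]
    rw [Finset.sum_ite_eq]
    simp only [Finset.mem_Icc, abs_le]
  · intro T η hη
    obtain ⟨δ, hδ, hclose⟩ := exists_close n T hη
    have h1 : ∀ e f : Fin n, ∃ (b : Crossed h) (r : ℕ) (c : ℤ → C(X, ℂ)),
        ‖T e f - b‖ ≤ δ ∧ ∀ x i j,
          ent b x i j = if |i - j| ≤ (r : ℤ) then c (i - j) ((h ^ i) x) else 0 :=
      fun e f => hdense (T e f) δ hδ
    choose b r c hb hc using h1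
    refine ⟨CStarMatrix.ofMatrix b, hclose _ hb, ?_⟩
    refine ⟨∑ e, ∑ f, r e f, fun k x => Matrix.of fun e f =>
      if |k| ≤ (r e f : ℤ) then c e f k x else 0, ?_, ?_⟩
    · intro k
      refine continuous_matrix fun e f => ?_
      simp only [Matrix.of_apply]
      split_ifs
      · exact (c e f k).continuous
      · exact continuous_const
    · intro x p q
      have h2 := hent x (CStarMatrix.ofMatrix b) p q
      rw [h2]
      have h3 : (CStarMatrix.ofMatrix b : Mat (Crossed h) n) p.2 q.2 = b p.2 q.2 := rfl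
      rw [h3, hc]
      have hle : r p.2 q.2 ≤ ∑ e, ∑ f, r e f :=
        (Finset.single_le_sum (f := fun f => r p.2 f) (fun _ _ => Nat.zero_le _)
          (Finset.mem_univ q.2)).trans
          (Finset.single_le_sum (f := fun e => ∑ f, r e f) (fun _ _ => Nat.zero_le _)
            (Finset.mem_univ p.2))
      by_cases hr : |p.1 - q.1| ≤ (r p.2 q.2 : ℤ)
      · have hr2 : |p.1 - q.1| ≤ ((∑ e, ∑ f, r e f : ℕ) : ℤ) := hr.trans (by exact_mod_cast hle)
        rw [if_pos hr, if_pos hr2]
        simp [hr]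
      · rw [if_neg hr]
        simp [hr]

end Pool.Agent.H44.RC
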